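import Pool.Agent.Q201.SC.Stm

set_option autoImplicit false

/-! # Tools for recognisable relations -/

namespace Pool.Agent.Q137.SC
open Pool.Agent.Q201.SC

theorem Rec.congr {ι U : Type} {R R' : (ι → List U) → Prop} (h : Rec R) (e : ∀ u, R u ↔ R' u) :
    Rec R' := by
  have : R = R' := funext fun u => propext (e u)
  rwa [← this]

theorem Rec2.congr {U : Type} {R R' : List U → List U → Prop} (h : Rec2 R)
    (e : ∀ u v, R u v ↔ R' u v) : Rec2 R' :=
  Rec.congr h fun _ => e _ _

theorem Rec1.congr {U : Type} {R R' : List U → Prop} (h : Rec1 R)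
    (e : ∀ u, R u ↔ R' u) : Rec1 R' :=
  Rec.congr h fun _ => e _

theorem and' (tk : TK) {ι U : Type} {R R' : (ι → List U) → Prop} (h : Rec R) (h' : Rec R') :
    Rec (fun u => R u ∧ R' u) := tk.and ι U R R' h h'

theorem or' (tk : TK) {ι U : Type} {R R' : (ι → List U) → Prop} (h : Rec R) (h' : Rec R') :
    Rec (fun u => R u ∨ R' u) := by
  refine Rec.congr (tk.not _ _ _ (tk.and _ _ _ _ (tk.not _ _ _ h) (tk.not _ _ _ h'))) fun u => ?_
  tauto

/-- a unary relation applied to one of the strings -/
theorem pull1 (tk : TK) {ι U : Type} {R : List U → Prop} (h : Rec1 R) (i : ι) :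
    Rec (fun u : ι → List U => R (u i)) :=
  tk.comap Unit ι U (fun _ => i) _ h

/-- a binary relation applied to two of the strings -/
theorem pull2 (tk : TK) {ι U : Type} {R : List U → List U → Prop} (h : Rec2 R) (i j : ι) :
    Rec (fun u : ι → List U => R (u i) (u j)) :=
  Rec.congr (tk.comap Bool ι U (fun b => if b then j else i) _ h) fun u => by simp

/-- letterwise relations -/
theorem letw (tk : TK) {ι U : Type} [Finite ι] [Finite U] (Q : (ι → Option U) → Prop) :
    Rec (fun u : ι → List U => ∀ i, Q (ltr u i)) := by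
  refine Rec.congr (tk.loc ι U Q (fun _ y => Q y)) fun u => ?_
  constructor
  · rintro ⟨h0, h⟩ i
    cases i with
    | zero => exact h0
    | succ i => exact h i
  · intro h
    exact ⟨h 0, fun i => h (i + 1)⟩

/-- equality of two of the strings -/
theorem eqv (tk : TK) {ι U : Type} [Finite U] (i j : ι) :
    Rec (fun u : ι → List U => u i = u j) := by
  have h : Rec2 (fun u v : List U => u = v) := by
    refine Rec.congr (letw tk (ι := Bool) (U := U) fun x => x false = x true) fun u => ?_
    constructor
    · intro h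
      exact List.ext_getElem? h
    · intro h k
      unfold ltr
      rw [h]
  exact pull2 tk h i j

/-- projection of several strings -/
theorem exs (tk : TK) {U : Type} : ∀ (n : ℕ) {ι : Type} (R : (Fin n ⊕ ι → List U) → Prop),
    Rec R → Rec (fun u : ι → List U => ∃ v : Fin n → List U, R (Sum.elim v u)) := by
  intro n
  induction n with
  | zero =>
    intro ι R hR
    refine Rec.congr (tk.comap (Fin 0 ⊕ ι) ι U (fun x => match x with | Sum.inr i => i) R hR)
      fun u => ?_
    have e : ∀ v : Fin 0 → List U, Sum.elim v u =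
        (fun x : Fin 0 ⊕ ι => u (match x with | Sum.inr i => i)) := by
      intro v
      funext x
      rcases x with x | x
      · exact x.elim0
      · rfl
    constructor
    · intro h
      exact ⟨fun x => x.elim0, by rw [e]; exact h⟩
    · rintro ⟨v, h⟩
      rw [e] at h
      exact h
  | succ n ih =>
    intro ι R hR
    let f : Fin (n + 1) ⊕ ι → Fin n ⊕ Option ι := fun x => match x with
      | Sum.inl a => Fin.cases (Sum.inr none) (fun b => Sum.inl b) a
      | Sum.inr i => Sum.inr (some i)
    have h1 := tk.comap _ _ U f R hR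
    have h2 := ih _ h1
    have h3 := tk.ex _ _ _ h2
    refine Rec.congr h3 fun u => ?_
    have e : ∀ (v : List U) (v' : Fin n → List U),
        (fun j => Sum.elim v' (fun o : Option ι => o.elim v u) (f j)) =
        Sum.elim (Fin.cons v v' : Fin (n + 1) → List U) u := by
      intro v v'
      funext x
      rcases x with x | x
      · refine Fin.cases ?_ (fun b => ?_) x
        · rfl
        · rfl
      · rfl
    constructor
    · rintro ⟨v, v', h⟩
      rw [e] at h
      exact ⟨_, h⟩
    · rintro ⟨w, h⟩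
      refine ⟨w 0, fun i => w i.succ, ?_⟩
      rw [e]
      have : (Fin.cons (w 0) (fun i => w i.succ) : Fin (n + 1) → List U) = w := Fin.cons_self_tail w
      rw [this]
      exact h

/-! ### Zipping -/

/-- lists all of whose letters are of the form `Sum.inl` -/
theorem exists_map_inl {A B : Type} (w : List (A ⊕ B))
    (h : ∀ (i : ℕ) (y : A ⊕ B), w[i]? = some y → ∃ z, y = Sum.inl z) :
    ∃ t : List A, w = t.map Sum.inl := by
  induction w with
  | nil => exact ⟨[], rfl⟩
  | cons a w ih =>
    obtain ⟨t, ht⟩ := ih fun i y hy => h (i + 1) y (by simpa using hy)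
    obtain ⟨z, hz⟩ := h 0 a (by simp)
    exact ⟨z :: t, by rw [ht, hz]; rfl⟩

open Classical in
/-- the letter of the zipped string -/
noncomputable def zl {α : Type} (d τ : Bool) (y : Fin 4 → Option (Lt α)) : Option (Lt α) :=
  if ∀ j, y j = none then none else some (Sum.inr (d, τ, fun j => (y j).bind Sum.getLeft?))

theorem zip_get {α : Type} (d τ : Bool) (t : Fin 4 → List (Trk α)) (i : ℕ) :
    (zipT d τ t)[i]? = zl d τ (fun j => ((t j).map (Sum.inl : Trk α → Lt α))[i]?) := by
  have hsup : i < (Finset.univ.sup fun j => (t j).length) ↔ ∃ j, i < (t j).length := by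
    rw [Finset.lt_sup_iff]
    simp
  have hnone : (∀ j, ((t j).map (Sum.inl : Trk α → Lt α))[i]? = none) ↔
      ¬ i < (Finset.univ.sup fun j => (t j).length) := by
    rw [hsup]
    push Not
    refine forall_congr' fun j => ?_
    rw [List.getElem?_eq_none_iff, List.length_map]
  unfold zipT zl
  rw [List.getElem?_map]
  by_cases h : i < (Finset.univ.sup fun j => (t j).length)
  · rw [List.getElem?_range h, if_neg (fun h' => hnone.1 h' h)]
    simp only [Option.map_some, Option.some.injEq, Sum.inr.injEq, Prod.mk.injEq, true_and]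
    funext j
    rw [List.getElem?_map]
    cases (t j)[i]? <;> rfl
  · rw [if_pos (hnone.2 h), List.getElem?_eq_none (by simpa using h)]
    rfl

theorem zip_iff {α : Type} (d τ : Bool) (u : Option (Fin 4) → List (Lt α)) :
    (∀ i, (∀ (j : Fin 4) (y : Lt α), ltr u i (some j) = some y → ∃ z, y = Sum.inl z) ∧
      ltr u i none = zl d τ (fun j => ltr u i (some j))) ↔
    ∃ t : Fin 4 → List (Trk α), (∀ j, u (some j) = (t j).map Sum.inl) ∧ u none = zipT d τ t := by
  constructor
  · intro h
    have h1 : ∀ j : Fin 4, ∃ t : List (Trk α), u (some j) = t.map Sum.inl := fun j =>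
      exists_map_inl _ fun i y hy => (h i).1 j y hy
    choose t ht using h1
    refine ⟨t, ht, ?_⟩
    refine List.ext_getElem? fun i => ?_
    rw [zip_get]
    have := (h i).2
    unfold ltr at this
    simp only [ht] at this
    exact this
  · rintro ⟨t, ht, h0⟩ i
    unfold ltr
    refine ⟨?_, ?_⟩
    · intro j y hy
      rw [ht, List.getElem?_map] at hy
      cases hc : (t j)[i]? with
      | none => rw [hc] at hy; exact absurd hy (by simp)
      | some z =>
        rw [hc] at hy
        simp only [Option.map_some, Option.some.injEq] at hy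
        exact ⟨z, hy.symm⟩
    · rw [h0, zip_get]
      simp only [ht]

theorem zip_rec (tk : TK) (α : Type) [Finite α] (d τ : Bool) :
    Rec (fun u : Option (Fin 4) → List (Lt α) => ∃ t : Fin 4 → List (Trk α),
    (∀ j, u (some j) = (t j).map Sum.inl) ∧ u none = zipT d τ t) := by
  exact Rec.congr (letw tk (ι := Option (Fin 4)) (U := Lt α) fun x =>
    (∀ (j : Fin 4) (y : Lt α), x (some j) = some y → ∃ z, y = Sum.inl z) ∧
      x none = zl d τ (fun j => x (some j))) fun u => zip_iff d τ u

/-- the codes whose tracks are in a recognisable relation -/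
theorem zip1 (tk : TK) {α : Type} [Finite α] (d τ : Bool) {R : (Fin 4 → List (Lt α)) → Prop}
    (hR : Rec R) : Rec1 (fun w : List (Lt α) => ∃ t : Fin 4 → List (Trk α),
      R (fun j => (t j).map Sum.inl) ∧ w = zipT d τ t) := by
  have h1 : Rec (fun x : Fin 4 ⊕ Unit → List (Lt α) => R (fun j => x (Sum.inl j))) :=
    tk.comap (Fin 4) (Fin 4 ⊕ Unit) _ Sum.inl R hR
  have h2 := tk.comap (Option (Fin 4)) (Fin 4 ⊕ Unit) _
    (fun o : Option (Fin 4) => o.elim (Sum.inr ()) Sum.inl) _ (zip_rec tk α d τ)
  refine Rec.congr (exs tk 4 _ (and' tk h1 h2)) fun u => ?_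
  constructor
  · rintro ⟨v, hv, t, ht, h0⟩
    have hv' : v = fun j => (t j).map Sum.inl := funext fun j => ht j
    refine ⟨t, ?_, h0⟩
    rw [← hv']
    exact hv
  · rintro ⟨t, ht, h0⟩
    exact ⟨fun j => (t j).map Sum.inl, ht, t, fun j => rfl, h0⟩

/-- the pairs of codes whose tracks are in a recognisable relation -/
theorem zip2 (tk : TK) {α : Type} [Finite α] (d τ d' τ' : Bool)
    {R : (Fin 4 → List (Lt α)) → (Fin 4 → List (Lt α)) → Prop}
    (hR : Rec (fun u : Fin 4 ⊕ Fin 4 → List (Lt α) =>
      R (fun j => u (Sum.inl j)) (fun j => u (Sum.inr j)))) :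
    Rec2 (fun w w' : List (Lt α) => ∃ t t' : Fin 4 → List (Trk α),
      R (fun j => (t j).map Sum.inl) (fun j => (t' j).map Sum.inl) ∧
      w = zipT d τ t ∧ w' = zipT d' τ' t') := by
  have h1 := tk.comap (Fin 4 ⊕ Fin 4) (Fin 4 ⊕ (Fin 4 ⊕ Bool)) _
    (fun x : Fin 4 ⊕ Fin 4 => (match x with
      | Sum.inl j => Sum.inr (Sum.inl j)
      | Sum.inr j => Sum.inl j : Fin 4 ⊕ (Fin 4 ⊕ Bool))) _ hR
  have h2 := tk.comap (Option (Fin 4)) (Fin 4 ⊕ (Fin 4 ⊕ Bool)) _
    (fun o : Option (Fin 4) => o.elim (Sum.inr (Sum.inr false)) fun j => Sum.inr (Sum.inl j)) _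
    (zip_rec tk α d τ)
  have h3 := tk.comap (Option (Fin 4)) (Fin 4 ⊕ (Fin 4 ⊕ Bool)) _
    (fun o : Option (Fin 4) => o.elim (Sum.inr (Sum.inr true)) fun j => Sum.inl j) _
    (zip_rec tk α d' τ')
  refine Rec.congr (exs tk 4 _ (exs tk 4 _ (and' tk h1 (and' tk h2 h3)))) fun u => ?_
  constructor
  · rintro ⟨v, v', hv, ⟨t, ht, h0⟩, t', ht', h0'⟩
    have hv1 : v = fun j => (t j).map Sum.inl := funext fun j => ht j
    have hv2 : v' = fun j => (t' j).map Sum.inl := funext fun j => ht' j
    refine ⟨t, t', ?_, h0, h0'⟩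
    rw [← hv1, ← hv2]
    exact hv
  · rintro ⟨t, t', ht, h0, h0'⟩
    exact ⟨fun j => (t j).map Sum.inl, fun j => (t' j).map Sum.inl, ht, ⟨t, fun j => rfl, h0⟩,
      ⟨t', fun j => rfl, h0'⟩⟩

/-! ### Bit strings -/

/-- the letters for bits -/
def emb {α : Type} (b : Bool) : Lt α := Sum.inl (Sum.inr b)

theorem un_map {α : Type} (n : ℕ) :
    ((un n : List (Trk α)).map Sum.inl : List (Lt α)) = (List.replicate n false).map emb := by
  simp [un, emb]

theorem bs_map {α : Type} (s : List Bool) :
    ((bs s : List (Trk α)).map Sum.inl : List (Lt α)) = s.map emb := by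
  simp [bs, emb]

/-- decoding of letters -/
def dcd {α : Type} : Option (Lt α) → Option Bool
  | some (Sum.inl (Sum.inr b)) => some b
  | _ => none

theorem dcd_map {α : Type} (s : List Bool) (i : ℕ) :
    dcd ((s.map (emb : Bool → Lt α))[i]?) = s[i]? := by
  rw [List.getElem?_map]
  cases s[i]? <;> rfl

theorem exists_map_emb {α : Type} (w : List (Lt α))
    (h : ∀ (i : ℕ) (y : Lt α), w[i]? = some y → ∃ b, y = emb b) :
    ∃ t : List Bool, w = t.map emb := by
  induction w with
  | nil => exact ⟨[], rfl⟩
  | cons a w ih =>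
    obtain ⟨t, ht⟩ := ih fun i y hy => h (i + 1) y (by simpa using hy)
    obtain ⟨z, hz⟩ := h 0 a (by simp)
    exact ⟨z :: t, by rw [ht, hz]; rfl⟩

/-- local relations between bit strings -/
theorem bitLoc (tk : TK) {α : Type} [Finite α] {ι : Type} [Finite ι]
    (P0 : (ι → Option Bool) → Prop) (P : (ι → Option Bool) → (ι → Option Bool) → Prop) :
    Rec (fun u : ι → List (Lt α) => ∃ t : ι → List Bool, (∀ j, u j = (t j).map emb) ∧
      P0 (ltr t 0) ∧ ∀ i, P (ltr t i) (ltr t (i + 1))) := by
  let G : (ι → Option (Lt α)) → Prop := fun x => ∀ j y, x j = some y → ∃ b, y = emb b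
  refine Rec.congr (tk.loc ι (Lt α) (fun x => G x ∧ P0 fun j => dcd (x j))
    (fun x y => G y ∧ P (fun j => dcd (x j)) fun j => dcd (y j))) fun u => ?_
  constructor
  · rintro ⟨⟨g0, p0⟩, h⟩
    have hG : ∀ i, G (ltr u i) := by
      intro i
      cases i with
      | zero => exact g0
      | succ i => exact (h i).1
    have h1 : ∀ j, ∃ t : List Bool, u j = t.map emb := fun j =>
      exists_map_emb _ fun i y hy => hG i j y hy
    choose t ht using h1
    have hd : ∀ i, (fun j => dcd (ltr u i j)) = ltr t i := by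
      intro i
      funext j
      unfold ltr
      rw [ht, dcd_map]
    refine ⟨t, ht, ?_, fun i => ?_⟩
    · rw [← hd]; exact p0
    · rw [← hd, ← hd]; exact (h i).2
  · rintro ⟨t, ht, p0, h⟩
    have hd : ∀ i, (fun j => dcd (ltr u i j)) = ltr t i := by
      intro i
      funext j
      unfold ltr
      rw [ht, dcd_map]
    have hG : ∀ i, G (ltr u i) := by
      intro i j y hy
      unfold ltr at hy
      rw [ht, List.getElem?_map] at hy
      cases hc : (t j)[i]? with
      | none => rw [hc] at hy; exact absurd hy (by simp)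
      | some z =>
        rw [hc] at hy
        simp only [Option.map_some, Option.some.injEq] at hy
        exact ⟨z, hy.symm⟩
    refine ⟨⟨hG 0, ?_⟩, fun i => ⟨hG _, ?_⟩⟩
    · rw [hd]; exact p0
    · rw [hd, hd]; exact h i

theorem emb_inj {α : Type} : Function.Injective (emb : Bool → Lt α) := by
  intro a b h
  simpa [emb] using h

theorem map_emb_inj {α : Type} {s t : List Bool} (h : s.map (emb : Bool → Lt α) = t.map emb) :
    s = t := List.map_injective_iff.2 emb_inj h

end Pool.Agent.Q137.SC
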